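import Pool.Agent.TH450.FG.H
import Pool.Agent.Q15.DYN.Basic
import Pool.Agent.Q15.DYN.Ext

/-!
# Rational maps over function fields of every characteristic: preperiodic points and bad places

For every `d ≥ 2` there is a constant `C`, depending on nothing but `d`, with the following
property. Let `k` be any field (of any characteristic), `K` the function field of a curve over `k`,
`S` a finite set of places of `K`, `L` a finite extension of `K`, and `f` a rational map of degree
`d` over `L` which is not isotrivial and has potentially good reduction at all places of `L` which do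
not lie above `S`. With `n = [L : K] #S` the map `f` has at most `C (n + 1) log (n + 2)` preperiodic
points in the projective line over `L`.

So for every `s` the family of the non-isotrivial rational maps of degree `d` over `K̄` with
potentially good reduction outside `s` places satisfies the Strong Uniform Boundedness Principle over
`K`, in every characteristic, with a bound `O(D s log (D s))` whose constant does not depend on `K`.

The theorem for one field and a finite set of its places is the finished theorem
`Pool.Agent.TH450.FG.main_ff` of the library; here it is combined with the bound `[L : K]` for the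
number of the places of `L` above a place of `K`.
-/

set_option autoImplicit false

namespace Pool.Agent.Results.MP_9b502d_nt.BadPlacesAllCharacteristics

open Real LinearAlgebra.Projectivization

universe u v w

/-- `K` is a function field of one variable over `k`: finitely generated, of transcendence degree
one. -/
def IsFunctionField (k : Type v) (K : Type u) [Field k] [Field K] [Algebra k K] : Prop :=
  Algebra.EssFiniteType k K ∧ Algebra.trdeg k K = 1

section defs

variable {L : Type u} [Field L]

/-- The forms `f 0`, `f 1` have no common zero over the algebraic closure other than the origin: for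
forms of degree `d` this says that `[f 0 : f 1]` is a rational map of degree `d`. -/
def IsMorphism (f : Fin 2 → MvPolynomial (Fin 2) L) : Prop :=
  ∀ x : Fin 2 → AlgebraicClosure L, (∀ i, MvPolynomial.aeval x (f i) = 0) → x = 0

/-- the vector of the values of the forms -/
noncomputable def image (f : Fin 2 → MvPolynomial (Fin 2) L) (x : Fin 2 → L) : Fin 2 → L :=
  fun i => MvPolynomial.eval x (f i)

/-- the preperiodic points of `[f 0 : f 1]` in the projective line over `L`: the orbit, as a set of
lines of the plane, is finite -/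
def preper (f : Fin 2 → MvPolynomial (Fin 2) L) : Set (ℙ L (Fin 2 → L)) :=
  {p | (Set.range fun j : ℕ => Submodule.span L {(image f)^[j] p.rep}).Finite}

/-- `[f 0 : f 1]` is isotrivial: it is conjugate, over the algebraic closure of `L`, to a map whose
coefficients are algebraic over `k`. -/
def IsIsotrivial (k : Type v) [Field k] [Algebra k L] (d : ℕ)
    (f : Fin 2 → MvPolynomial (Fin 2) L) : Prop :=
  ∃ (A : Matrix (Fin 2) (Fin 2) (AlgebraicClosure L))
    (g : Fin 2 → MvPolynomial (Fin 2) (AlgebraicClosure L)),
    A.det ≠ 0 ∧ (∀ i, (g i).IsHomogeneous d) ∧ (∀ i m, IsAlgebraic k ((g i).coeff m)) ∧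
      ∀ x : Fin 2 → AlgebraicClosure L, x ≠ 0 → ∃ c : AlgebraicClosure L, c ≠ 0 ∧
        (fun i => MvPolynomial.aeval (A.mulVec x) (f i)) =
          c • A.mulVec (fun i => MvPolynomial.eval x (g i))

/-- Potentially good reduction of `[f 0 : f 1]` at the absolute value `v`: for an extension `w` of
`v` to the algebraic closure there are coordinates `A` over the algebraic closure in which a multiple
of `f` is a pair `g` of forms with `w`-integral coefficients whose reduction has no common zero. -/
def PotentiallyGood (v : AbsoluteValue L ℝ) (d : ℕ) (f : Fin 2 → MvPolynomial (Fin 2) L) : Prop :=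
  ∃ w : AbsoluteValue (AlgebraicClosure L) ℝ,
    (∀ x : L, w (algebraMap L (AlgebraicClosure L) x) = v x) ∧
    ∃ g : Fin 2 → MvPolynomial (Fin 2) (AlgebraicClosure L), (∀ i, (g i).IsHomogeneous d) ∧
      ((∀ i m, w ((g i).coeff m) ≤ 1) ∧
        ∀ x : Fin 2 → AlgebraicClosure L, (∀ i, w (x i) ≤ 1) → (∃ i, w (x i) = 1) →
          ∃ i, w (MvPolynomial.eval x (g i)) = 1) ∧
      ∃ (A : Matrix (Fin 2) (Fin 2) (AlgebraicClosure L)) (c : AlgebraicClosure L),
        A.det ≠ 0 ∧ c ≠ 0 ∧ ∀ x : Fin 2 → AlgebraicClosure L,
          A.mulVec (fun i => MvPolynomial.eval x (g i)) =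
            c • fun i => MvPolynomial.aeval (A.mulVec x) (f i)

end defs

lemma potGood_iff {L : Type u} [Field L] (v : AbsoluteValue L ℝ) (d : ℕ)
    (f : Fin 2 → MvPolynomial (Fin 2) L) :
    PotentiallyGood v d f ↔ Pool.Agent.H951R3.PB.PotGood v d f := by
  have h : ∀ y : Fin 2 → AlgebraicClosure L, Pool.Agent.H951R3.PB.ev
      (Pool.Agent.H951R3.PB.fL L f) y = fun i => MvPolynomial.aeval y (f i) := by
    intro y
    funext i
    simp only [Pool.Agent.H951R3.PB.ev, Pool.Agent.H951R3.PB.fL]
    rw [MvPolynomial.eval_map, MvPolynomial.aeval_def]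
  unfold PotentiallyGood Pool.Agent.H951R3.PB.PotGood Pool.Agent.H951R3.PB.PotGoodAt
    Pool.Agent.H951R3.PB.Ext Pool.Agent.H951R3.PB.GoodAt
  simp only [h]
  rfl

lemma ff_facts {k : Type v} {K : Type u} [Field k] [Field K] [Algebra k K]
    (h : IsFunctionField k K) : (⊤ : IntermediateField k K).FG ∧
      ∃ x : K, Transcendental k x ∧ Algebra.IsAlgebraic (IntermediateField.adjoin k {x}) K := by
  obtain ⟨h1, h2⟩ := h
  refine ⟨IntermediateField.fg_top k K, ?_⟩
  obtain ⟨s, hs⟩ := exists_isTranscendenceBasis k K
  have hc := hs.cardinalMk_eq_trdeg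
  rw [h2, Cardinal.eq_one_iff_unique] at hc
  obtain ⟨hc1, ⟨x⟩⟩ := hc
  refine ⟨x, hs.1.transcendental x, ?_⟩
  have h3 := hs.isAlgebraic_field
  have h4 : Set.range (Subtype.val : {y // y ∈ s} → K) = {(x : K)} := by
    ext y
    constructor
    · rintro ⟨y, rfl⟩
      rw [Subsingleton.elim y x]
      rfl
    · rintro rfl
      exact ⟨x, rfl⟩
  rwa [h4] at h3

lemma ff_ext {k : Type v} {K : Type w} {L : Type u} [Field k] [Field K] [Field L] [Algebra k K]
    [Algebra k L] [Algebra K L] [IsScalarTower k K L] [FiniteDimensional K L]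
    (h : IsFunctionField k K) : IsFunctionField k L := by
  obtain ⟨h1, h2⟩ := h
  refine ⟨Algebra.EssFiniteType.comp k K L, ?_⟩
  have h3 := lift_trdeg_add_eq k K L
  rw [h2, trdeg_eq_zero] at h3
  simp only [Cardinal.lift_one, Cardinal.lift_zero, add_zero] at h3
  have h4 : Cardinal.lift.{w} (Algebra.trdeg k L) = Cardinal.lift.{w} (1 : Cardinal.{u}) := by
    rw [← h3, Cardinal.lift_one]
  exact Cardinal.lift_injective h4

lemma eval_smul {L : Type u} [Field L] {n d : ℕ} {f : MvPolynomial (Fin n) L}
    (hf : f.IsHomogeneous d) (c : L) (x : Fin n → L) :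
    MvPolynomial.eval (c • x) f = c ^ d * MvPolynomial.eval x f := by
  rw [MvPolynomial.eval_eq, MvPolynomial.eval_eq, Finset.mul_sum]
  refine Finset.sum_congr rfl fun m hm => ?_
  have h1 : ∑ i ∈ m.support, m i = d := by
    have h2 := hf (MvPolynomial.mem_support_iff.1 hm)
    rw [← h2, Finsupp.weight_apply, Finsupp.sum]
    simp
  simp only [Pi.smul_apply, smul_eq_mul, mul_pow]
  rw [Finset.prod_mul_distrib, Finset.prod_pow_eq_pow_sum, h1]
  ring

/-- For every `d ≥ 2` there is `C` such that for every field `k`, every function field `K` of a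
curve over `k`, every finite set `S` of places of `K`, every finite extension `L` of `K` and every
rational map `f` of degree `d` over `L` which is not isotrivial and has potentially good reduction at
all places of `L` not above `S`: with `n = [L : K] #S`, the map `f` has at most
`C (n + 1) log (n + 2)` preperiodic points in the projective line over `L`. -/
theorem result (d : ℕ) (hd : 2 ≤ d) : ∃ C : ℝ, 0 < C ∧
    ∀ (k : Type v) (K : Type w) [Field k] [Field K] [Algebra k K], IsFunctionField k K →
    ∀ (S : Finset (AbsoluteValue K ℝ)) (L : Type u) [Field L] [Algebra k L] [Algebra K L]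
      [IsScalarTower k K L] [FiniteDimensional K L]
      (f : Fin 2 → MvPolynomial (Fin 2) L), (∀ i, (f i).IsHomogeneous d) → IsMorphism f →
      ¬ IsIsotrivial k d f →
      (∀ v : AbsoluteValue L ℝ, v.IsNontrivial → (∀ c : k, c ≠ 0 → v (algebraMap k L c) = 1) →
        ¬ PotentiallyGood v d f → ∃ t ∈ S, (v.comp (algebraMap K L).injective).IsEquiv t) →
      (preper f).Finite ∧ ((preper f).ncard : ℝ) ≤
        C * ((Module.finrank K L * S.card : ℕ) + 1) *
          log ((Module.finrank K L * S.card : ℕ) + 2) := by
  obtain ⟨C, hC, H⟩ := Pool.Agent.TH450.FG.main_ff.{u, v} d hd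
  refine ⟨C, hC, ?_⟩
  intro k K _ _ _ hK S L _ _ _ _ _ f hf hmor hiso hS
  have hL : IsFunctionField k L := ff_ext hK
  obtain ⟨hL1, hL2⟩ := ff_facts hL
  obtain ⟨T, hT1, hT2⟩ := Pool.Agent.Q15.DYN.exists_reps (K := K) (L := L)
    (fun v => v.IsNontrivial ∧ (∀ c : k, c ≠ 0 → v (algebraMap k L c) = 1) ∧
      ¬ PotentiallyGood v d f)
    (fun v hv => Pool.Agent.Q15.DYN.nonarch_of_trivial (k := k) v hv.2.1) (fun v hv => hv.1) S
    (fun v hv => hS v hv.1 hv.2.1 hv.2.2)
  have hsm : ∀ (c : L) (x : Fin 2 → L), image f (c • x) = c ^ d • image f x := by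
    intro c x
    funext i
    simp only [image, Pi.smul_apply, smul_eq_mul]
    exact eval_smul (hf i) c x
  have h1 := Pool.Agent.Q15.DYN.card_points (K := L) (V := Fin 2 → L)
    (P := fun x => (Set.range fun j : ℕ => Submodule.span L {(image f)^[j] x}).Finite)
    (B := C * (T.card + 1) * log (T.card + 2)) (by
      intro X hX0 hXc hXp
      refine H k L hL1 hL2 f hf hmor hiso T ?_ X hX0 hXc ?_
      · intro v hv hv1 hv2
        exact hT2 v ⟨hv, hv1, fun h => hv2 ((potGood_iff v d f).1 h)⟩
      · intro x hx
        exact (Pool.Agent.Q15.DYN.pre_iff hsm).1 (hXp x hx))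
  refine ⟨h1.1, h1.2.trans ?_⟩
  have hn : ((T.card : ℕ) : ℝ) ≤ ((Module.finrank K L * S.card : ℕ) : ℝ) := by exact_mod_cast hT1
  have h0 : (0 : ℝ) ≤ T.card := Nat.cast_nonneg _
  have h5 : 0 ≤ log ((T.card : ℝ) + 2) := log_nonneg (by linarith)
  gcongr

end Pool.Agent.Results.MP_9b502d_nt.BadPlacesAllCharacteristics
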