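import Pool.Agent.Results.MP_9b502d_nt.GapRationalMaps
import Pool.Agent.Q15.TD.T2

/-!
# Strong uniform boundedness for rational maps with a gap, over function fields of any transcendence
degree

Let `k` be a field of characteristic zero and `K` an extension of degree at most `n` of a purely
transcendental extension `k(B)`, with `B` of any (finite or infinite) cardinality. Rational maps
`F = (A z ^ d + a(z)) / q(z)` over `K` of degree `d ≥ 26 n (e + 1) ^ 6` with `deg a, deg q ≤ e`, which
are not conjugate over `K` to a map with coefficients algebraic over `k`, have at most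
`(d + e) ^ 2 + (d + 1) e + 2` preperiodic points in the projective line over `K`. This is the strong
uniform boundedness principle for these maps, as extensions `L / K` of degree at most `D` are of
degree at most `D n` over `k(B)`.

For transcendence degree one this is the starting file `Results/MP_9b502d_nt/GapRationalMaps.lean`.

Proof. For `b` in `B` the field `K` is of degree at most `n` over `k_b(b)`, `k_b = k(B \ b)`. If there are
more preperiodic points then the map is conjugate to one over the algebraic closure of `k_b` for
every `b`, so that the cross ratios of its preperiodic points are algebraic over every `k_b`, hence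
over `k`; as there are more than `2 d + 1` of them, it is conjugate over `K` to a map with coefficients
algebraic over `k`.
-/

set_option autoImplicit false

namespace Pool.Agent.Results.MP_9b502d_nt.GapMapsAllTranscendence

open Polynomial

universe u v

open Classical in
/-- The self-map `z ↦ p(z) / q(z)` of the projective line `K ∪ {∞}`, where `none` is `∞`; it sends
`∞` and the zeros of `q` to `∞`. (It is used for coprime `p`, `q` with `deg p > deg q`, when `∞` is
fixed.) -/
noncomputable def mapP1 {K : Type*} [Field K] (p q : K[X]) (z : Option K) : Option K :=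
  z.elim none fun x => if q.eval x = 0 then none else some (p.eval x / q.eval x)

/-- With `φ(x) = (a x + b) / (c x + e)`, the map `p / q` of degree `d` satisfies
`φ ∘ (p / q) = (u / w) ∘ φ` for some `a, b, c, e` in `K` with `a e ≠ b c` and some polynomials
`u, w` of degree at most `d`, not both zero, with coefficients algebraic over `k`; the equation is
written with denominators cleared. So `p / q` is conjugate over `K` itself, not only over its
algebraic closure, to a map with coefficients algebraic over `k`. -/
def ConstantOver (k : Type*) {K : Type*} [Field k] [Field K] [Algebra k K] (p q : K[X])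
    (d : ℕ) : Prop :=
  ∃ a b c e : K, a * e - b * c ≠ 0 ∧ ∃ u w : K[X], (u ≠ 0 ∨ w ≠ 0) ∧
    u.natDegree ≤ d ∧ w.natDegree ≤ d ∧ (∀ n, IsAlgebraic k (u.coeff n)) ∧
    (∀ n, IsAlgebraic k (w.coeff n)) ∧
    (C a * p + C b * q) * ∑ i ∈ Finset.range (d + 1),
      C (w.coeff i) * (C a * X + C b) ^ i * (C c * X + C e) ^ (d - i) =
    (C c * p + C e * q) * ∑ i ∈ Finset.range (d + 1),
      C (u.coeff i) * (C a * X + C b) ^ i * (C c * X + C e) ^ (d - i)

/-- Let `k` be a field of characteristic zero, let `B` be a subset (finite or infinite) of an
extension `K` of `k`, algebraically independent over `k`, with `[K : k(B)] ≤ n`. Let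
`d ≥ 26 n (e + 1) ^ 6`, and let `F = p / q`, `p = A z ^ d + a(z)`, with `A ≠ 0`, `q ≠ 0` prime to
`p` and `deg a, deg q ≤ e`, over `K`. If `F` is not conjugate, by an element of `PGL_2(K)`, to a map
with coefficients algebraic over `k`, then `F` has at most `(d + e) ^ 2 + (d + 1) e + 2` preperiodic
points in the projective line over `K`. -/
theorem result (k : Type u) (K : Type v) [Field k] [CharZero k] [Field K] [Algebra k K]
    (B : Set K) (hB : AlgebraicIndependent k ((↑) : B → K))
    [FiniteDimensional (IntermediateField.adjoin k B) K] (n e d : ℕ)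
    (hn : Module.finrank (IntermediateField.adjoin k B) K ≤ n) (hd : 26 * n * (e + 1) ^ 6 ≤ d)
    (p q : K[X]) (A : K) (hA : A ≠ 0) (hp : (p - C A * X ^ d).natDegree ≤ e)
    (hq : q.natDegree ≤ e) (hq0 : q ≠ 0) (hco : IsCoprime p q)
    (hiso : ¬ ConstantOver k p q d) :
    {z : Option K | (Set.range fun m : ℕ => (mapP1 p q)^[m] z).Finite}.encard ≤
      (((d + e) ^ 2 + (d + 1) * e + 2 : ℕ) : ℕ∞) := by
  have hn1 : 1 ≤ n := by
    have h1 : 0 < Module.finrank (IntermediateField.adjoin k B) K := Module.finrank_pos
    omega
  have h6 : (e + 1) ≤ (e + 1) ^ 6 := Nat.le_self_pow (by norm_num) _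
  have hed : 26 * (e + 1) ≤ d := by
    calc 26 * (e + 1) ≤ 26 * n * (e + 1) ^ 6 := Nat.mul_le_mul (by omega) h6
      _ ≤ d := hd
  have hpd : p.natDegree = d := by
    have h1 : p = (p - C A * X ^ d) + C A * X ^ d := by ring
    rw [h1, natDegree_add_eq_right_of_natDegree_lt, natDegree_C_mul_X_pow d A hA]
    rw [natDegree_C_mul_X_pow d A hA]
    omega
  have hmap : mapP1 p q = Pool.Agent.Z864.UB.rt p q d := by
    funext z
    cases z with
    | none =>
      have : q.coeff d = 0 := coeff_eq_zero_of_natDegree_lt (by omega)
      simp [mapP1, Pool.Agent.Z864.UB.rt, this]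
    | some x =>
      simp only [mapP1, Pool.Agent.Z864.UB.rt, Option.elim_some]
  rw [hmap]
  refine Pool.Agent.Q15.TD.transfer (k := k) hB hn (by omega) hco ?_ hiso ?_ ?_
  · rw [hpd]
    omega
  · nlinarith
  · intro k' b htr h1 h2 hni
    have hc : CharZero k' := charZero_of_injective_algebraMap (algebraMap k k').injective
    have h3 := Pool.Agent.Results.MP_9b502d_nt.GapRationalMaps.result k' K b htr n e d h2 hd p q A hA
      hp hq hq0 (by
        rintro ⟨y, c, hy, hc, h4, h5⟩
        exact hni (Pool.Agent.Q15.TD.ca_of_scaling hpd.le (by omega) hq0 hy hc h4 h5))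
    have e1 : Pool.Agent.Results.MP_9b502d_nt.GapRationalMaps.mapP1 p q =
        Pool.Agent.Z864.UB.rt p q d := by
      rw [← hmap]
      rfl
    rw [e1] at h3
    exact h3

end Pool.Agent.Results.MP_9b502d_nt.GapMapsAllTranscendence
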