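import Pool.Agent.Results.MP_9b502d_nt.AllPolynomialsStrong
import Pool.Agent.Z864.UB.Main

/-!
# Strong uniform boundedness for all polynomials over function fields of any transcendence degree

Let `k` be a field of characteristic zero and `K` an extension of degree at most `n` of a purely
transcendental extension `k(B)`, with `B` of any (finite or infinite) cardinality. The number of the
preperiodic points in `K` of a polynomial of degree `d` over `K`, which is not conjugate to a map
over the algebraic closure of `k` in `K`, is bounded in terms of `d` and `n` only: this is the strong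
uniform boundedness principle, as extensions `L / K` of degree at most `D` are of degree at most
`D n` over `k(B)`.

For transcendence degree one this is the starting file
`Results/MP_9b502d_nt/AllPolynomialsStrong.lean`; over function fields of higher transcendence
degree the (weak) principle, with a bound depending on the field `K`, is in the starting file
`Results/MP_9b502d_nt/AnyTranscendenceDegree.lean`. The result implies the case of function fields
`K` of curves over function fields `k' ⊇ k` with the polynomials which are isotrivial over `k'` but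
not over `k`.

Proof. For `b` in `B` the field `K` is of degree at most `n` over `k_b(b)`, `k_b = k(B \ b)`. If there are
more preperiodic points then the polynomial is isotrivial over every `k_b`, so that the cross ratios
of its preperiodic points are algebraic over every `k_b`, hence over `k`; as there are more than
`2 d + 1` of them, it is conjugate over `K` to a map with coefficients algebraic over `k`.
-/

set_option autoImplicit false

namespace Pool.Agent.Results.MP_9b502d_nt.PolynomialsStrongAllDegrees

open Polynomial

universe u v

/-- With `φ(x) = (a x + b) / (c x + e)`, the map `p / q` of degree `d` satisfies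
`φ ∘ (p / q) = (u / w) ∘ φ` for some `a, b, c, e` in `K` with `a e ≠ b c` and some polynomials
`u, w` of degree at most `d`, not both zero, with coefficients algebraic over `k`; the equation is
written with denominators cleared. So `p / q` is conjugate over `K` itself, not only over its
algebraic closure, to a map with coefficients algebraic over `k`. -/
def ConstantOver (k : Type*) {K : Type*} [Field k] [Field K] [Algebra k K] (p q : K[X])
    (d : ℕ) : Prop :=
  ∃ a b c e : K, a * e - b * c ≠ 0 ∧ ∃ u w : K[X], (u ≠ 0 ∨ w ≠ 0) ∧
    u.natDegree ≤ d ∧ w.natDegree ≤ d ∧ (∀ n, IsAlgebraic k (u.coeff n)) ∧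
    (∀ n, IsAlgebraic k (w.coeff n)) ∧
    (C a * p + C b * q) * ∑ i ∈ Finset.range (d + 1),
      C (w.coeff i) * (C a * X + C b) ^ i * (C c * X + C e) ^ (d - i) =
    (C c * p + C e * q) * ∑ i ∈ Finset.range (d + 1),
      C (u.coeff i) * (C a * X + C b) ^ i * (C c * X + C e) ^ (d - i)

section

variable {k : Type u} {K : Type v} [Field k] [Field K] [Algebra k K]

lemma sub_finrank {B S : Set K} {b : K} (h : S ∪ {b} = B)
    [FiniteDimensional (IntermediateField.adjoin k B) K] :
    FiniteDimensional (IntermediateField.adjoin (IntermediateField.adjoin k S) {b}) K ∧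
      Module.finrank (IntermediateField.adjoin (IntermediateField.adjoin k S) {b}) K =
        Module.finrank (IntermediateField.adjoin k B) K := by
  have h1 : (IntermediateField.adjoin (IntermediateField.adjoin k S) {b}).restrictScalars k =
      IntermediateField.adjoin k B := by
    rw [IntermediateField.adjoin_adjoin_left, h]
  have h2 : FiniteDimensional
      ((IntermediateField.adjoin (IntermediateField.adjoin k S) {b}).restrictScalars k) K := by
    rw [h1]
    infer_instance
  have h3 : Module.finrank
      ((IntermediateField.adjoin (IntermediateField.adjoin k S) {b}).restrictScalars k) K =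
        Module.finrank (IntermediateField.adjoin k B) K := by
    rw [h1]
  exact ⟨h2, h3⟩

/-- affine conjugation is conjugation -/
lemma ca_of_affine {d : ℕ} {f : K[X]} (hf : f.natDegree = d) {y b : K} (hy : y ≠ 0)
    (h : ∀ m, IsAlgebraic k ((C y⁻¹ * (f.comp (C y * X + C b) - C b)).coeff m)) :
    Pool.Agent.Z864.UB.CA k f 1 d := by
  set g : K[X] := C y⁻¹ * (f.comp (C y * X + C b) - C b) with hg
  have hgd : g.natDegree ≤ d := by
    rw [hg]
    refine (natDegree_C_mul_le _ _).trans ?_
    refine (natDegree_sub_le _ _).trans (max_le ?_ ?_)
    · refine natDegree_comp_le.trans ?_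
      rw [hf]
      calc d * (C y * X + C b).natDegree ≤ d * 1 := Nat.mul_le_mul_left _ natDegree_linear_le
        _ = d := Nat.mul_one _
    · rw [natDegree_C]
      exact Nat.zero_le _
  refine ⟨y⁻¹, -(y⁻¹ * b), 0, 1, ?_, g, 1, Or.inr one_ne_zero, hgd, ?_, h, ?_, ?_⟩
  · rw [mul_one, mul_zero, sub_zero]
    exact inv_ne_zero hy
  · rw [natDegree_one]
    exact Nat.zero_le _
  · intro n
    rw [coeff_one]
    split_ifs
    · exact isAlgebraic_one
    · exact isAlgebraic_zero
  · have e1 : ∀ A : K[X], A.natDegree ≤ d → ∀ L : K[X],
        Pool.Agent.Z864.UB.hcp d A L (C 0 * X + C 1) = A.comp L := by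
      intro A hA L
      show ∑ i ∈ Finset.range (d + 1), C (A.coeff i) * L ^ i * (C 0 * X + C 1) ^ (d - i) = _
      rw [comp, eval₂_eq_sum_range' C (Nat.lt_succ_of_le hA)]
      apply Finset.sum_congr rfl
      intro i _
      simp
    rw [e1 1 (by rw [natDegree_one]; exact Nat.zero_le _), e1 g hgd]
    have e2 : g.comp (C y⁻¹ * X + C (-(y⁻¹ * b))) = C y⁻¹ * f + C (-(y⁻¹ * b)) := by
      have e3 : (C y * X + C b).comp (C y⁻¹ * X + C (-(y⁻¹ * b))) = (X : K[X]) := by
        simp only [add_comp, mul_comp, C_comp, X_comp]
        rw [mul_add, ← mul_assoc, ← C_mul, mul_inv_cancel₀ hy, ← C_mul, C_1, one_mul, add_assoc,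
          ← C_add]
        have : y * -(y⁻¹ * b) + b = 0 := by
          field_simp
          ring
        rw [this, C_0, add_zero]
      rw [hg, mul_comp, C_comp, sub_comp, comp_assoc, e3, comp_X, C_comp]
      simp only [C_neg, C_mul]
      ring
    rw [e2, one_comp]
    simp

end

/-- **Strong uniform boundedness for polynomials in any transcendence degree.** Let `k` be a field
of characteristic zero, let `B` be a subset (finite or infinite) of an extension `K` of `k`,
algebraically independent over `k`, with `[K : k(B)] ≤ n`. Let `f` be a polynomial of degree `d ≥ 2`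
over `K` which is not conjugate, by an element of `PGL_2(K)`, to a map with coefficients algebraic
over `k`. Then `f` has fewer than
`d ^ (24 * (1 + (8 * d + 16 * n + 15) * d ^ (32 * d ^ 2 * (d + 1))))` preperiodic points in `K`. -/
theorem result (k : Type u) (K : Type v) [Field k] [CharZero k] [Field K] [Algebra k K]
    (B : Set K) (hB : AlgebraicIndependent k ((↑) : B → K))
    [FiniteDimensional (IntermediateField.adjoin k B) K] (n d : ℕ)
    (hn : Module.finrank (IntermediateField.adjoin k B) K ≤ n) (hd : 2 ≤ d) (f : K[X])
    (hf : f.natDegree = d) (hiso : ¬ ConstantOver k f 1 d) :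
    {z : K | (Set.range fun m : ℕ => (fun x => f.eval x)^[m] z).Finite}.encard <
      ((d ^ (24 * (1 + (8 * d + 16 * n + 15) * d ^ (32 * d ^ 2 * (d + 1)))) : ℕ) : ℕ∞) := by
  classical
  obtain ⟨E, hE⟩ : ∃ E : ℕ, E = d ^ (24 * (1 + (8 * d + 16 * n + 15) *
    d ^ (32 * d ^ 2 * (d + 1)))) := ⟨_, rfl⟩
  rw [← hE]
  have hEd : 2 * d + 2 ≤ E := by
    have h1 : d ^ 3 ≤ E := by
      rw [hE]
      apply Nat.pow_le_pow_right (by omega)
      have : 0 ≤ (8 * d + 16 * n + 15) * d ^ (32 * d ^ 2 * (d + 1)) := Nat.zero_le _
      omega
    have h2 : 2 * d + 2 ≤ d ^ 3 := by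
      have h3 : d * (2 * 2) ≤ d * (d * d) := Nat.mul_le_mul_left _ (Nat.mul_le_mul hd hd)
      have h4 : d ^ 3 = d * (d * d) := by ring
      omega
    omega
  have key : {z : K | (Set.range fun m : ℕ => (fun x => f.eval x)^[m] z).Finite}.encard ≤
      ((E - 1 : ℕ) : ℕ∞) := by
    apply Pool.Agent.Z864.UB.encard_of_stable
    intro P hP
    by_contra hcon
    push Not at hcon
    apply hiso
    have hfin : ∀ z ∈ P, (Set.range fun m : ℕ => (fun x => f.eval x)^[m] z).Finite := by
      intro z hz
      apply P.finite_toSet.subset
      rintro _ ⟨m, rfl⟩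
      rw [Finset.mem_coe]
      induction m with
      | zero => exact hz
      | succ m ih =>
        simp only
        rw [Function.iterate_succ_apply']
        exact hP _ ih
    have hcard : (P.image some).card = P.card :=
      Finset.card_image_of_injective _ (Option.some_injective K)
    refine Pool.Agent.Z864.UB.descent hB ?_ (fun _ => ∅) (fun b _ => Set.empty_subset _) hd
      (p := f) (q := 1) ?_ isCoprime_one_right (P := P.image some) ?_ ?_ ?_
    · intro x
      rw [Pool.Agent.Z864.UB.mem_cl]
      exact Algebra.IsAlgebraic.isAlgebraic x
    · rw [natDegree_one, hf]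
      omega
    · intro z hz
      obtain ⟨x, hx, rfl⟩ := Finset.mem_image.1 hz
      refine Finset.mem_image.2 ⟨f.eval x, hP x hx, ?_⟩
      simp [Pool.Agent.Z864.UB.rt]
    · rw [hcard]
      omega
    · intro b hb
      by_contra hni
      have hun : (B \ {b} ∪ ∅) ∪ {b} = B := by
        rw [Set.union_empty]
        exact Set.sdiff_union_of_subset (Set.singleton_subset_iff.2 hb)
      obtain ⟨h1, h2⟩ := sub_finrank (k := k) hun
      have htr : Transcendental (IntermediateField.adjoin k (B \ {b} ∪ ∅)) b := by
        intro h
        have h3 : b ∈ (Pool.Agent.Z864.UB.MM k K).closure (B \ {b} ∪ ∅) :=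
          Pool.Agent.Z864.UB.mem_cl.mpr h
        rw [Set.union_empty] at h3
        have hI : (Pool.Agent.Z864.UB.MM k K).Indep B :=
          AlgebraicIndependent.matroid_indep_iff.mpr hB
        exact hI.notMem_closure_sdiff_of_mem hb h3
      have hcz : CharZero (IntermediateField.adjoin k (B \ {b} ∪ ∅)) :=
        charZero_of_injective_algebraMap (algebraMap k _).injective
      obtain ⟨c, -, hc⟩ := AllPolynomialsStrong.result
        (IntermediateField.adjoin k (B \ {b} ∪ ∅)) K b htr
      have h3 := (hc n d f (h2.le.trans hn) hd hf (by
        rintro ⟨y, b', hy, hy'⟩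
        apply hni
        have h4 := Pool.Agent.Z864.UB.CA_map (ca_of_affine hf hy hy')
        rw [Polynomial.map_one] at h4 ⊢
        exact h4)).1
      rw [← hE] at h3
      have h5 : (P : Set K) ⊆ {z : K | (Set.range fun m : ℕ =>
          (fun x => f.eval x)^[m] z).Finite} := fun z hz => hfin z hz
      have h6 := (Set.encard_le_encard h5).trans_lt h3
      rw [Set.encard_coe_eq_coe_finsetCard] at h6
      have h7 : P.card < E := by exact_mod_cast h6
      omega
  refine key.trans_lt ?_
  exact_mod_cast Nat.sub_lt (by omega) one_pos

end Pool.Agent.Results.MP_9b502d_nt.PolynomialsStrongAllDegrees
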