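import Pool.Agent.Results.MP_9b502d_nt.PolynomialsSmallDegreeCharP
import Pool.Agent.Q15.TD.T1

/-!
# Strong uniform boundedness in characteristic `p > d`, over function fields of any transcendence degree

Let `k` be a field of characteristic `p`, and `K` an extension of degree at most `n` of a purely
transcendental extension `k(B)`, with `B` of any (finite or infinite) cardinality. The number of the
preperiodic points in `K` of a polynomial of degree `d < p` over `K`, which is not conjugate to a map
over the algebraic closure of `k` in `K`, is bounded in terms of `d` and `n` only, not of `k`, `p`,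
`K` or `B`: this is the strong uniform boundedness principle, as extensions `L / K` of degree at most
`D` are of degree at most `D n` over `k(B)`.

For transcendence degree one this is the starting file
`Results/MP_9b502d_nt/PolynomialsSmallDegreeCharP.lean`. The result implies the case of function
fields `K` of curves over function fields `k' ⊇ k` with the polynomials which are isotrivial over
`k'` but not over `k`.

Proof. For `b` in `B` the field `K` is of degree at most `n` over `k_b(b)`, `k_b = k(B \ b)`. If there are
more preperiodic points then the polynomial is isotrivial over every `k_b`, so that the cross ratios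
of its preperiodic points are algebraic over every `k_b`, hence over `k`; as there are more than
`2 d + 1` of them, it is conjugate over `K` to a map with coefficients algebraic over `k`.
-/

set_option autoImplicit false

namespace Pool.Agent.Results.MP_9b502d_nt.SmallDegreeCharPAllDegrees

open Polynomial

universe u v

/-- With `φ(x) = (a x + b) / (c x + e)`, the polynomial `f` of degree `d` satisfies
`φ ∘ f = (u / w) ∘ φ` for some `a, b, c, e` in `K` with `a e ≠ b c` and some polynomials
`u, w` of degree at most `d`, not both zero, with coefficients algebraic over `k`; the equation is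
written with denominators cleared. So `f` is conjugate over `K` itself, not only over its
algebraic closure, to a map with coefficients algebraic over `k`. -/
def ConstantOver (k : Type*) {K : Type*} [Field k] [Field K] [Algebra k K] (f : K[X])
    (d : ℕ) : Prop :=
  ∃ a b c e : K, a * e - b * c ≠ 0 ∧ ∃ u w : K[X], (u ≠ 0 ∨ w ≠ 0) ∧
    u.natDegree ≤ d ∧ w.natDegree ≤ d ∧ (∀ n, IsAlgebraic k (u.coeff n)) ∧
    (∀ n, IsAlgebraic k (w.coeff n)) ∧
    (C a * f + C b) * ∑ i ∈ Finset.range (d + 1),
      C (w.coeff i) * (C a * X + C b) ^ i * (C c * X + C e) ^ (d - i) =
    (C c * f + C e) * ∑ i ∈ Finset.range (d + 1),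
      C (u.coeff i) * (C a * X + C b) ^ i * (C c * X + C e) ^ (d - i)

/-- There is a function `N` such that the following holds for all `n` and `d ≥ 2`, for every prime
number `p > d`, every field `k` of characteristic `p`, every extension `K` of `k` and every subset
`B` (finite or infinite) of `K`, algebraically independent over `k`, with `[K : k(B)] ≤ n`. Let `f`
be a polynomial of degree `d` over `K` which is not conjugate, by an element of `PGL_2(K)`, to a map
with coefficients algebraic over `k`. Then `f` has at most `N(n, d)` preperiodic points in `K`. -/
theorem result : ∃ N : ℕ → ℕ → ℕ, ∀ (p : ℕ) (k : Type u) (K : Type v) [Field k] [CharP k p]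
    [Field K] [Algebra k K] (B : Set K), p.Prime → AlgebraicIndependent k ((↑) : B → K) →
    FiniteDimensional (IntermediateField.adjoin k B) K →
    ∀ (n d : ℕ) (f : K[X]), Module.finrank (IntermediateField.adjoin k B) K ≤ n →
      2 ≤ d → d < p → f.natDegree = d → ¬ ConstantOver k f d →
      {z : K | (Set.range fun m : ℕ => (fun x => f.eval x)^[m] z).Finite}.encard ≤
        (N n d : ℕ∞) := by
  obtain ⟨N, hN⟩ := Pool.Agent.Results.MP_9b502d_nt.PolynomialsSmallDegreeCharP.result.{v, v}
  refine ⟨fun n d => N n d + (2 * d + 1), ?_⟩
  intro p k K _ _ _ _ B hp hB hfin n d f hn hd hdp hf hiso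
  refine (Pool.Agent.Q15.TD.encard_some (f := f) (d := d) (by omega)).1.trans ?_
  refine Pool.Agent.Q15.TD.transfer (k := k) (M := N n d + (2 * d + 1)) hB hn hd (p := f)
    (q := 1) isCoprime_one_right ?_ ?_ (by omega) ?_
  · rw [natDegree_one, hf]
    omega
  · intro h
    apply hiso
    obtain ⟨a, b, c, e, hdet, u, w, h1, h2, h3, h4, h5, h6⟩ := h
    refine ⟨a, b, c, e, hdet, u, w, h1, h2, h3, h4, h5, ?_⟩
    rw [mul_one, mul_one] at h6
    exact h6
  · intro k' b htr h1 h2 hni
    have : CharP k' p := charP_of_injective_algebraMap (algebraMap k k').injective p
    have h3 := hN p k' K b hp htr h1 n d f h2 hd hdp hf (by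
      rintro ⟨y, b', hy, hy'⟩
      exact hni (Pool.Agent.Q15.TD.ca_of_affine hf hy hy'))
    refine (Pool.Agent.Q15.TD.encard_some (f := f) (d := d) (by omega)).2.trans ?_
    calc _ ≤ (N n d : ℕ∞) + 1 := by gcongr
      _ ≤ ((N n d + (2 * d + 1) : ℕ) : ℕ∞) := by
        have : N n d + 1 ≤ N n d + (2 * d + 1) := by omega
        exact_mod_cast this

end Pool.Agent.Results.MP_9b502d_nt.SmallDegreeCharPAllDegrees
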